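import Mathlib

set_option autoImplicit false

namespace Pool.Agent.D0H37.SG

open Finset
open scoped Classical

/-- the probability law: identity with probability `1 - η`, a uniform element of `G` with
probability `η` -/
noncomputable def noise {R : ℕ} (η : ℝ) (G : Subgroup (Equiv.Perm (Fin R)))
    (σ : Equiv.Perm (Fin R)) : ℝ :=
  (if σ = 1 then 1 - η else 0) + (if σ ∈ G then η / Nat.card G else 0)

theorem card_eq {R : ℕ} (G : Subgroup (Equiv.Perm (Fin R))) :
    (univ.filter fun σ => σ ∈ G).card = Nat.card G := by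
  rw [Nat.card_eq_fintype_card, Fintype.card_subtype]

theorem noise_nonneg {R : ℕ} {η : ℝ} (h0 : 0 ≤ η) (h1 : η ≤ 1)
    (G : Subgroup (Equiv.Perm (Fin R))) (σ : Equiv.Perm (Fin R)) : 0 ≤ noise η G σ := by
  unfold noise
  have : 0 ≤ η / Nat.card G := by positivity
  split_ifs <;> linarith

theorem sum_filter_noise {R : ℕ} (η : ℝ) (G : Subgroup (Equiv.Perm (Fin R)))
    (P : Equiv.Perm (Fin R) → Prop) [DecidablePred P] :
    ∑ σ ∈ univ.filter P, noise η G σ =
      (if P 1 then 1 - η else 0) +
        η / Nat.card G * (univ.filter fun σ => σ ∈ G ∧ P σ).card := by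
  unfold noise
  rw [Finset.sum_add_distrib]
  congr 1
  · rw [Finset.sum_ite_eq' (univ.filter P) (1 : Equiv.Perm (Fin R)) (fun _ => 1 - η)]
    simp
  · rw [← Finset.sum_filter, Finset.sum_const, nsmul_eq_mul, mul_comm]
    congr 2
    rw [Finset.filter_filter]
    congr 2
    ext σ
    simp [and_comm]

theorem sum_noise {R : ℕ} (η : ℝ) (G : Subgroup (Equiv.Perm (Fin R))) :
    ∑ σ, noise η G σ = 1 := by
  have h := sum_filter_noise η G (fun _ => True)
  simp only [and_true, if_true] at h
  rw [card_eq, Finset.filter_true] at h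
  rw [h]
  have : (Nat.card G : ℝ) ≠ 0 := by
    exact_mod_cast Nat.card_pos.ne'
  field_simp
  ring

/-- probability of the set `A` of noise patterns -/
noncomputable def prob {R : ℕ} {E : Type} [Fintype E] (η : ℝ)
    (G : E → Subgroup (Equiv.Perm (Fin R))) (A : Set (E → Equiv.Perm (Fin R))) : ℝ :=
  ∑ σ ∈ univ.filter (fun σ => σ ∈ A), ∏ e, noise η (G e) (σ e)

/-- probability that the edge is consistent -/
noncomputable def ff {R : ℕ} {K : Type} (η : ℝ) (G : Subgroup (Equiv.Perm (Fin R)))
    (Y z : Fin R → K) : ℝ :=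
  ∑ σ ∈ univ.filter (fun σ : Equiv.Perm (Fin R) => z ∘ σ = Y), noise η G σ

theorem ff_nonneg {R : ℕ} {K : Type} {η : ℝ} (h0 : 0 ≤ η) (h1 : η ≤ 1)
    (G : Subgroup (Equiv.Perm (Fin R))) (Y z : Fin R → K) : 0 ≤ ff η G Y z :=
  Finset.sum_nonneg fun σ _ => noise_nonneg h0 h1 G σ

theorem sum_ff {R : ℕ} {K : Type} [Fintype K] (η : ℝ)
    (G : Subgroup (Equiv.Perm (Fin R))) (Y : Fin R → K) :
    ∑ z : Fin R → K, ff η G Y z = 1 := by
  unfold ff
  rw [← sum_noise η G]
  simp only [Finset.sum_filter]
  rw [Finset.sum_comm]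
  refine Finset.sum_congr rfl fun σ _ => ?_
  have : ∀ z : Fin R → K, z ∘ σ = Y ↔ z = Y ∘ σ.symm := by
    intro z
    constructor
    · rintro rfl
      funext i
      simp
    · rintro rfl
      funext i
      simp
  simp only [this]
  simp

/-- the collision bound -/
theorem ff_le {R : ℕ} {K : Type} {η : ℝ} (h0 : 0 ≤ η) (h1 : η ≤ 1)
    (G : Subgroup (Equiv.Perm (Fin R))) (Y z : Fin R → K)
    (hz : ∃ τ ∈ G, z ∘ (τ : Equiv.Perm (Fin R)) ≠ z) : ff η G Y z ≤ 1 - η / 2 := by
  obtain ⟨τ, hτ, hne⟩ := hz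
  unfold ff
  rw [sum_filter_noise]
  set A := univ.filter fun σ : Equiv.Perm (Fin R) => σ ∈ G ∧ z ∘ σ = Y with hA
  have hcard : 2 * A.card ≤ Nat.card G := by
    have hd : Disjoint A (A.map (Equiv.mulLeft τ).toEmbedding) := by
      rw [Finset.disjoint_left]
      intro σ hσ hσ'
      rw [Finset.mem_map] at hσ'
      obtain ⟨ρ, hρ, rfl⟩ := hσ'
      rw [hA, Finset.mem_filter] at hσ hρ
      apply hne
      have e1 := hσ.2.2
      have e2 := hρ.2.2
      funext i
      have e3 : (z ∘ (τ * ρ : Equiv.Perm (Fin R))) (ρ.symm i) = (z ∘ ρ) (ρ.symm i) := by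
        have : z ∘ (τ * ρ : Equiv.Perm (Fin R)) = z ∘ ρ := by
          rw [e2]; exact e1
        rw [this]
      simpa using e3
    have hsub : A ∪ A.map (Equiv.mulLeft τ).toEmbedding ⊆ univ.filter fun σ => σ ∈ G := by
      intro σ hσ
      rw [Finset.mem_union] at hσ
      rcases hσ with hσ | hσ
      · rw [hA, Finset.mem_filter] at hσ
        simpa using hσ.2.1
      · rw [Finset.mem_map] at hσ
        obtain ⟨ρ, hρ, rfl⟩ := hσ
        rw [hA, Finset.mem_filter] at hρ
        simpa using G.mul_mem hτ hρ.2.1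
    have h3 := Finset.card_le_card hsub
    rw [Finset.card_union_of_disjoint hd, Finset.card_map, card_eq] at h3
    omega
  have hG : (0 : ℝ) < Nat.card G := by exact_mod_cast Nat.card_pos
  have h2 : η / Nat.card G * (A.card : ℝ) ≤ η / 2 := by
    have : (2 : ℝ) * A.card ≤ Nat.card G := by exact_mod_cast hcard
    rw [div_mul_eq_mul_div, div_le_div_iff₀ hG (by norm_num)]
    nlinarith
  split_ifs with h
  · linarith
  · linarith

/-- factorisation over the left vertices -/
theorem main_sum {V E T : Type} [Fintype V] [Fintype E] [Fintype T] (left : E → V)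
    (hs : Function.Surjective left) (f : E → T → ℝ) (hf0 : ∀ e z, 0 ≤ f e z)
    (hf1 : ∀ e, ∑ z, f e z = 1) (κ : ℝ) (hκ0 : 0 ≤ κ) (Bad : V → Set T)
    (hB : ∀ e z, z ∈ Bad (left e) → f e z ≤ κ) (B : Finset V) :
    ∑ x ∈ univ.filter (fun x : V → T => ∀ v ∈ B, x v ∈ Bad v), ∏ e, f e (x (left e)) ≤
      κ ^ (∑ v ∈ B, ((univ.filter fun e => left e = v).card - 1)) := by
  have hle1 : ∀ e z, f e z ≤ 1 := by
    intro e z
    rw [← hf1 e]
    exact Finset.single_le_sum (fun z _ => hf0 e z) (Finset.mem_univ z)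
  have e1 : (univ.filter (fun x : V → T => ∀ v ∈ B, x v ∈ Bad v)) =
      Fintype.piFinset (fun v => if v ∈ B then univ.filter (fun z => z ∈ Bad v) else univ) := by
    ext x
    rw [Finset.mem_filter, Fintype.mem_piFinset]
    constructor
    · rintro ⟨-, h⟩ v
      by_cases hv : v ∈ B
      · rw [if_pos hv, Finset.mem_filter]
        exact ⟨Finset.mem_univ _, h v hv⟩
      · rw [if_neg hv]
        exact Finset.mem_univ _
    · intro h
      refine ⟨Finset.mem_univ _, fun v hv => ?_⟩
      have := h v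
      rw [if_pos hv, Finset.mem_filter] at this
      exact this.2
  have e2 : ∀ x : V → T, ∏ e, f e (x (left e)) =
      ∏ v, ∏ e ∈ univ.filter (fun e => left e = v), f e (x v) := by
    intro x
    rw [← Finset.prod_fiberwise (s := univ) (g := left)]
    refine Finset.prod_congr rfl fun v _ => Finset.prod_congr rfl fun e he => ?_
    rw [(Finset.mem_filter.1 he).2]
  rw [e1, Finset.sum_congr rfl (fun x _ => e2 x)]
  rw [← Finset.prod_univ_sum (fun v => if v ∈ B then univ.filter (fun z => z ∈ Bad v) else univ)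
    (fun v z => ∏ e ∈ univ.filter (fun e => left e = v), f e z)]
  rw [← Finset.prod_pow_eq_pow_sum]
  have e3 : ∏ v ∈ B, κ ^ ((univ.filter fun e => left e = v).card - 1) =
      ∏ v, (if v ∈ B then κ ^ ((univ.filter fun e => left e = v).card - 1) else 1) := by
    rw [Finset.prod_ite_mem, Finset.univ_inter]
  rw [e3]
  refine Finset.prod_le_prod (fun v _ => Finset.sum_nonneg fun z _ =>
    Finset.prod_nonneg fun e _ => hf0 e z) (fun v _ => ?_)
  obtain ⟨e0, he0⟩ := hs v
  have hmem : e0 ∈ univ.filter (fun e => left e = v) := by simp [he0]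
  by_cases hv : v ∈ B
  · rw [if_pos hv, if_pos hv]
    calc ∑ z ∈ univ.filter (fun z => z ∈ Bad v),
          ∏ e ∈ univ.filter (fun e => left e = v), f e z
        ≤ ∑ z ∈ univ.filter (fun z => z ∈ Bad v),
          f e0 z * κ ^ ((univ.filter fun e => left e = v).card - 1) := by
          refine Finset.sum_le_sum fun z hz => ?_
          rw [Finset.mem_filter] at hz
          rw [← Finset.mul_prod_erase _ _ hmem]
          refine mul_le_mul_of_nonneg_left ?_ (hf0 e0 z)
          rw [← Finset.card_erase_of_mem hmem, ← Finset.prod_const]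
          refine Finset.prod_le_prod (fun e _ => hf0 e z) fun e he => ?_
          have : left e = v := (Finset.mem_filter.1 (Finset.mem_of_mem_erase he)).2
          exact hB e z (this ▸ hz.2)
      _ ≤ ∑ z, f e0 z * κ ^ ((univ.filter fun e => left e = v).card - 1) := by
          refine Finset.sum_le_sum_of_subset_of_nonneg (Finset.subset_univ _) fun z _ _ => ?_
          exact mul_nonneg (hf0 e0 z) (pow_nonneg hκ0 _)
      _ = κ ^ ((univ.filter fun e => left e = v).card - 1) := by
          rw [← Finset.sum_mul, hf1, one_mul]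
  · rw [if_neg hv, if_neg hv]
    calc ∑ z, ∏ e ∈ univ.filter (fun e => left e = v), f e z
        ≤ ∑ z, f e0 z := by
          refine Finset.sum_le_sum fun z _ => ?_
          rw [← Finset.mul_prod_erase _ _ hmem]
          calc f e0 z * ∏ e ∈ (univ.filter fun e => left e = v).erase e0, f e z
              ≤ f e0 z * 1 := by
                refine mul_le_mul_of_nonneg_left ?_ (hf0 e0 z)
                exact Finset.prod_le_one (fun e _ => hf0 e z) fun e _ => hle1 e z
            _ = f e0 z := mul_one _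
      _ = 1 := hf1 e0

end Pool.Agent.D0H37.SG
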