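import Pool.Agent.D0H37.SG.Main

set_option autoImplicit false

namespace Pool.Agent.D0H37.SG

open Finset
open scoped Classical

variable {V W E : Type} {d R : ℕ}

theorem prob_mono [Fintype E] {η : ℝ} (h0 : 0 ≤ η) (h1 : η ≤ 1)
    (G : E → Subgroup (Equiv.Perm (Fin R))) {A B : Set (E → Equiv.Perm (Fin R))}
    (h : ∀ σ ∈ A, (∀ e, σ e ∈ G e) → σ ∈ B) : prob η G A ≤ prob η G B := by
  unfold prob
  rw [Finset.sum_filter, Finset.sum_filter]
  refine Finset.sum_le_sum fun σ _ => ?_
  have hn : 0 ≤ ∏ e, noise η (G e) (σ e) :=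
    Finset.prod_nonneg fun e _ => noise_nonneg h0 h1 _ _
  by_cases hA : σ ∈ A
  · rw [if_pos hA]
    by_cases hG : ∀ e, σ e ∈ G e
    · rw [if_pos (h σ hA hG)]
    · obtain ⟨e, he⟩ := not_forall.1 hG
      have : ∏ e, noise η (G e) (σ e) = 0 := by
        refine Finset.prod_eq_zero (Finset.mem_univ e) ?_
        unfold noise
        have h2 : σ e ≠ 1 := fun h3 => he (h3 ▸ (G e).one_mem)
        rw [if_neg he, if_neg h2, add_zero]
      rw [this]
      split_ifs <;> exact le_refl _
  · rw [if_neg hA]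
    split_ifs
    · exact hn
    · exact le_refl _

theorem prob_nonneg [Fintype E] {η : ℝ} (h0 : 0 ≤ η) (h1 : η ≤ 1)
    (G : E → Subgroup (Equiv.Perm (Fin R))) (A : Set (E → Equiv.Perm (Fin R))) :
    0 ≤ prob η G A :=
  Finset.sum_nonneg fun _ _ => Finset.prod_nonneg fun _ _ => noise_nonneg h0 h1 _ _

theorem prob_union [Fintype E] {ι : Type} {η : ℝ} (h0 : 0 ≤ η) (h1 : η ≤ 1)
    (G : E → Subgroup (Equiv.Perm (Fin R))) (A : Set (E → Equiv.Perm (Fin R)))
    (I : Finset ι) (B : ι → Set (E → Equiv.Perm (Fin R)))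
    (h : ∀ σ ∈ A, (∀ e, σ e ∈ G e) → ∃ i ∈ I, σ ∈ B i) :
    prob η G A ≤ ∑ i ∈ I, prob η G (B i) := by
  refine (prob_mono h0 h1 G (B := {σ | ∃ i ∈ I, σ ∈ B i}) h).trans ?_
  unfold prob
  rw [Finset.sum_filter]
  simp only [Finset.sum_filter]
  rw [Finset.sum_comm]
  refine Finset.sum_le_sum fun σ _ => ?_
  have hn : 0 ≤ ∏ e, noise η (G e) (σ e) :=
    Finset.prod_nonneg fun e _ => noise_nonneg h0 h1 _ _
  have hn2 : ∀ i ∈ I, 0 ≤ (if σ ∈ B i then ∏ e, noise η (G e) (σ e) else 0) := by
    intro i _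
    split_ifs
    · exact hn
    · exact le_refl _
  by_cases hσ : σ ∈ {σ | ∃ i ∈ I, σ ∈ B i}
  · rw [if_pos hσ]
    obtain ⟨i, hi, hi2⟩ := hσ
    refine le_trans ?_ (Finset.single_le_sum hn2 hi)
    rw [if_pos hi2]
  · rw [if_neg hσ]
    exact Finset.sum_nonneg hn2

theorem prob_prod [Fintype E] (η : ℝ)
    (G : E → Subgroup (Equiv.Perm (Fin R))) (T : E → Equiv.Perm (Fin R) → Prop) :
    prob η G {σ | ∀ e, T e (σ e)} = ∏ e, ∑ σ ∈ univ.filter (fun σ => T e σ), noise η (G e) σ := by
  unfold prob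
  rw [Finset.prod_univ_sum]
  refine Finset.sum_congr ?_ fun _ _ => rfl
  ext σ
  simp [Fintype.mem_piFinset]

theorem deg_sum [Fintype V] [Fintype E] (left : E → V) (B : Finset V) :
    ∑ v ∈ B, (univ.filter fun e => left e = v).card = (univ.filter fun e => left e ∈ B).card := by
  rw [← Finset.card_biUnion]
  · congr 1
    ext e
    simp
  · intro v _ w _ hvw
    rw [Function.onFun, Finset.disjoint_left]
    intro e he he'
    exact hvw ((Finset.mem_filter.1 he).2.symm.trans (Finset.mem_filter.1 he').2)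

theorem deg_sub [Fintype V] [Fintype E] (left : E → V) (B : Finset V) :
    (univ.filter fun e => left e ∈ B).card ≤
      ∑ v ∈ B, ((univ.filter fun e => left e = v).card - 1) + Fintype.card V := by
  rw [← deg_sum]
  have h1 : ∑ v ∈ B, (univ.filter fun e => left e = v).card ≤
      ∑ v ∈ B, (((univ.filter fun e => left e = v).card - 1) + 1) :=
    Finset.sum_le_sum fun v _ => by omega
  rw [Finset.sum_add_distrib, Finset.sum_const, smul_eq_mul, mul_one] at h1
  have h2 : B.card ≤ Fintype.card V := Finset.card_le_univ B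
  omega

theorem pow_bound {η : ℝ} (h1 : η ≤ 1) (Q : ℕ) {t : ℝ} (h0 : 0 ≤ η) (ht : t ≤ Q) :
    (1 - η / 2) ^ Q ≤ Real.exp (-(η / 2) * t) := by
  have h2 : 1 - η / 2 ≤ Real.exp (-(η / 2)) := by
    have := Real.add_one_le_exp (-(η / 2))
    linarith
  calc (1 - η / 2) ^ Q ≤ (Real.exp (-(η / 2))) ^ Q :=
        pow_le_pow_left₀ (by linarith) h2 Q
    _ = Real.exp (-(η / 2) * Q) := by rw [← Real.exp_nat_mul]; ring_nf
    _ ≤ Real.exp (-(η / 2) * t) := by
        apply Real.exp_le_exp.2
        nlinarith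

/-- the refutation -/
theorem refute [Fintype V] [Fintype W] [Fintype E] {p : ℕ} (hp : p.Prime) (hpR : p ∣ R)
    (g : Game V W E d R) (hs : Function.Surjective g.left) {η : ℝ} (h0 : 0 < η) (h1 : η ≤ 1)
    (G : E → Subgroup (Equiv.Perm (Fin R))) (hG : ∀ e i j, ∃ τ ∈ G e, τ i = j)
    (hE : 2 / η * ((d * R * Real.log p + 1) * Fintype.card W + 2 * Fintype.card V) ≤
      Fintype.card E) :
    prob η G {σ | ∃ x y, AffineSol p (g.perturb σ) x y} ≤
      Real.exp (-(Fintype.card V + Fintype.card W)) := by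
  have : Fact p.Prime := ⟨hp⟩
  have hBad : ∀ (e : E) (z : Fin R → ZMod p), z ∈ ({z | ∑ i, z i = 1} : Set (Fin R → ZMod p)) →
      ∃ τ ∈ G e, z ∘ (τ : Equiv.Perm (Fin R)) ≠ z := by
    intro e z hz
    by_contra hcon
    push Not at hcon
    have hconst : ∀ i j, z i = z j := by
      intro i j
      obtain ⟨τ, hτ, h2⟩ := hG e j i
      have h3 := congrFun (hcon τ hτ) j
      rw [Function.comp, h2] at h3
      exact h3
    have h4 : ∑ i, z i = 0 := by
      rcases Nat.eq_zero_or_pos R with h5 | h5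
      · subst h5
        simp
      · have h6 : ∑ i, z i = ∑ _i : Fin R, z ⟨0, h5⟩ :=
          Finset.sum_congr rfl fun i _ => hconst i _
        rw [h6, Finset.sum_const, Finset.card_univ, Fintype.card_fin, nsmul_eq_mul,
          (ZMod.natCast_eq_zero_iff R p).2 hpR, zero_mul]
    have h7 : ∑ i, z i = 1 := hz
    rw [h4] at h7
    exact zero_ne_one h7
  have key := prob_fixed (p := p) g hs h0.le h1 G (fun _ => {z | ∑ i, z i = 1})
    (fun e z hz => hBad e z hz) univ
  refine (prob_mono h0.le h1 G (B := {σ | ∃ x y, AffineSol p (g.perturb σ) x y ∧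
    ∀ v ∈ (univ : Finset V), x v ∈ ({z | ∑ i, z i = 1} : Set (Fin R → ZMod p))}) ?_).trans
      (key.trans ?_)
  · rintro σ ⟨x, y, h⟩ -
    exact ⟨x, y, h, fun v _ => h.sum_left v⟩
  · have hp0 : (0 : ℝ) < p := by exact_mod_cast hp.pos
    have e1 : (p : ℝ) ^ (d * R * Fintype.card W) =
        Real.exp (d * R * Fintype.card W * Real.log p) := by
      rw [← Real.rpow_natCast, Real.rpow_def_of_pos hp0]
      push_cast
      ring_nf
    have hQ := deg_sub g.left univ
    have h3 : (univ.filter fun e => g.left e ∈ (univ : Finset V)) = univ := by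
      ext e; simp
    rw [h3, Finset.card_univ] at hQ
    have h4 : (Fintype.card E : ℝ) - Fintype.card V ≤
        ((∑ v, ((univ.filter fun e => g.left e = v).card - 1) : ℕ) : ℝ) := by
      have : (Fintype.card E : ℝ) ≤
          ((∑ v, ((univ.filter fun e => g.left e = v).card - 1) : ℕ) : ℝ) + Fintype.card V := by
        exact_mod_cast hQ
      linarith
    have h5 := pow_bound h1 _ h0.le h4
    rw [e1]
    calc Real.exp (d * R * Fintype.card W * Real.log p) *
          (1 - η / 2) ^ (∑ v, ((univ.filter fun e => g.left e = v).card - 1))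
        ≤ Real.exp (d * R * Fintype.card W * Real.log p) *
          Real.exp (-(η / 2) * ((Fintype.card E : ℝ) - Fintype.card V)) :=
          mul_le_mul_of_nonneg_left h5 (Real.exp_pos _).le
      _ = Real.exp (d * R * Fintype.card W * Real.log p +
          -(η / 2) * ((Fintype.card E : ℝ) - Fintype.card V)) := (Real.exp_add _ _).symm
      _ ≤ _ := by
          apply Real.exp_le_exp.2
          have h6 : (d * R * Real.log p + 1) * Fintype.card W + 2 * Fintype.card V ≤
              η / 2 * Fintype.card E := by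
            have := mul_le_mul_of_nonneg_left hE (show 0 ≤ η / 2 by linarith)
            refine le_trans (le_of_eq ?_) this
            field_simp
          have hV : (0 : ℝ) ≤ Fintype.card V := Nat.cast_nonneg _
          nlinarith

end Pool.Agent.D0H37.SG
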