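import Pool.Agent.D0H37.SG.Core

set_option autoImplicit false

namespace Pool.Agent.D0H37.SG

open Finset
open scoped Classical

/-- a d-to-1 game (Label Cover instance) with left vertices `V`, right vertices `W` and edges `E` -/
structure Game (V W E : Type) (d R : ℕ) where
  /-- the left end of an edge -/
  left : E → V
  /-- the right end of an edge -/
  right : E → W
  /-- the constraint of an edge -/
  map : E → Fin (d * R) → Fin R
  /-- each left label has at most `d` preimages -/
  fib : ∀ e b, (univ.filter fun a => map e a = b).card ≤ d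

variable {V W E : Type} {d R : ℕ}

/-- the game in which the left labels of the constraint of `e` are permuted by `σ e` -/
def Game.perturb (g : Game V W E d R) (σ : E → Equiv.Perm (Fin R)) : Game V W E d R where
  left := g.left
  right := g.right
  map := fun e a => σ e (g.map e a)
  fib := fun e b => by
    have h : (univ.filter fun a => σ e (g.map e a) = b) =
        univ.filter fun a => g.map e a = (σ e).symm b := by
      ext a
      simp only [Finset.mem_filter, Finset.mem_univ, true_and]
      exact (Equiv.eq_symm_apply (σ e)).symm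
    rw [h]
    exact g.fib e _

/-- a solution modulo `p` of the linear system of the game -/
structure AffineSol (p : ℕ) (g : Game V W E d R) (x : V → Fin R → ZMod p)
    (y : W → Fin (d * R) → ZMod p) : Prop where
  sum_left : ∀ v, ∑ i, x v i = 1
  sum_right : ∀ w, ∑ j, y w j = 1
  edge : ∀ e i, ∑ j ∈ univ.filter (fun j => g.map e j = i), y (g.right e) j = x (g.left e) i

/-- value one implies solvability -/
theorem affine_of_labelling (p : ℕ) (g : Game V W E d R) (L : V → Fin R)
    (M : W → Fin (d * R)) (h : ∀ e, g.map e (M (g.right e)) = L (g.left e)) :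
    ∃ x y, AffineSol p g x y := by
  refine ⟨fun v i => if i = L v then 1 else 0, fun w j => if j = M w then 1 else 0, ?_, ?_, ?_⟩
  · intro v
    simp
  · intro w
    simp
  · intro e i
    rw [Finset.sum_ite_eq' (univ.filter fun j => g.map e j = i) (M (g.right e))]
    simp only [Finset.mem_filter, Finset.mem_univ, true_and, h e, eq_comm]

/-- push forward -/
noncomputable def push {p : ℕ} (g : Game V W E d R) (y : W → Fin (d * R) → ZMod p) (e : E) :
    Fin R → ZMod p :=
  fun i => ∑ j ∈ univ.filter (fun j => g.map e j = i), y (g.right e) j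

theorem edge_comp {p : ℕ} (g : Game V W E d R) (σ : E → Equiv.Perm (Fin R))
    {x : V → Fin R → ZMod p} {y : W → Fin (d * R) → ZMod p}
    (h : AffineSol p (g.perturb σ) x y) (e : E) : x (g.left e) ∘ (σ e) = push g y e := by
  funext i
  have h1 := h.edge e (σ e i)
  have h2 : (univ.filter fun j => (g.perturb σ).map e j = σ e i) =
      univ.filter fun j => g.map e j = i := by
    ext j
    simp [Game.perturb]
  rw [h2] at h1
  exact h1.symm

/-- for a fixed set `B` of left vertices -/
theorem prob_fixed [Fintype V] [Fintype W] [Fintype E] {p : ℕ} [Fact p.Prime]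
    (g : Game V W E d R) (hs : Function.Surjective g.left) {η : ℝ} (h0 : 0 ≤ η) (h1 : η ≤ 1)
    (G : E → Subgroup (Equiv.Perm (Fin R))) (Bad : V → Set (Fin R → ZMod p))
    (hBad : ∀ e z, z ∈ Bad (g.left e) → ∃ τ ∈ G e, z ∘ (τ : Equiv.Perm (Fin R)) ≠ z)
    (B : Finset V) :
    prob η G {σ | ∃ x y, AffineSol p (g.perturb σ) x y ∧ ∀ v ∈ B, x v ∈ Bad v} ≤
      (p : ℝ) ^ (d * R * Fintype.card W) *
        (1 - η / 2) ^ (∑ v ∈ B, ((univ.filter fun e => g.left e = v).card - 1)) := by
  have hp : p.Prime := Fact.out
  have : NeZero p := ⟨hp.ne_zero⟩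
  have hw : ∀ σ : E → Equiv.Perm (Fin R), 0 ≤ ∏ e, noise η (G e) (σ e) := fun σ =>
    Finset.prod_nonneg fun e _ => noise_nonneg h0 h1 _ _
  -- union bound
  have step1 : prob η G {σ | ∃ x y, AffineSol p (g.perturb σ) x y ∧ ∀ v ∈ B, x v ∈ Bad v} ≤
      ∑ σ : E → Equiv.Perm (Fin R), ∑ y : W → Fin (d * R) → ZMod p,
        ∑ x ∈ univ.filter (fun x : V → (Fin R → ZMod p) => ∀ v ∈ B, x v ∈ Bad v),
          ∏ e, (if x (g.left e) ∘ (σ e) = push g y e then noise η (G e) (σ e) else 0) := by
    unfold prob
    rw [Finset.sum_filter]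
    refine Finset.sum_le_sum fun σ _ => ?_
    have hnn : ∀ (y : W → Fin (d * R) → ZMod p) (x : V → (Fin R → ZMod p)),
        0 ≤ ∏ e, (if x (g.left e) ∘ (σ e) = push g y e then noise η (G e) (σ e) else 0) := by
      intro y x
      refine Finset.prod_nonneg fun e _ => ?_
      split_ifs
      · exact noise_nonneg h0 h1 _ _
      · exact le_refl _
    split_ifs with hσ
    · obtain ⟨x, y, hxy, hx⟩ := hσ
      have e1 : ∏ e, (if x (g.left e) ∘ (σ e) = push g y e then noise η (G e) (σ e) else 0) =
          ∏ e, noise η (G e) (σ e) := by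
        refine Finset.prod_congr rfl fun e _ => ?_
        rw [if_pos (edge_comp g σ hxy e)]
      rw [← e1]
      refine le_trans ?_ (Finset.single_le_sum (f := fun y : W → Fin (d * R) → ZMod p =>
        ∑ x ∈ univ.filter (fun x : V → (Fin R → ZMod p) => ∀ v ∈ B, x v ∈ Bad v),
          ∏ e, (if x (g.left e) ∘ (σ e) = push g y e then noise η (G e) (σ e) else 0))
        (fun y _ => Finset.sum_nonneg fun x _ => hnn y x) (Finset.mem_univ y))
      exact Finset.single_le_sum (f := fun x : V → (Fin R → ZMod p) =>
          ∏ e, (if x (g.left e) ∘ (σ e) = push g y e then noise η (G e) (σ e) else 0))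
        (fun x _ => hnn y x) (by rw [Finset.mem_filter]; exact ⟨Finset.mem_univ _, hx⟩)
    · exact Finset.sum_nonneg fun y _ => Finset.sum_nonneg fun x _ => hnn y x
  refine step1.trans ?_
  rw [Finset.sum_comm]
  have step2 : ∀ y : W → Fin (d * R) → ZMod p,
      ∑ σ : E → Equiv.Perm (Fin R),
        ∑ x ∈ univ.filter (fun x : V → (Fin R → ZMod p) => ∀ v ∈ B, x v ∈ Bad v),
          ∏ e, (if x (g.left e) ∘ (σ e) = push g y e then noise η (G e) (σ e) else 0) ≤
      (1 - η / 2) ^ (∑ v ∈ B, ((univ.filter fun e => g.left e = v).card - 1)) := by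
    intro y
    rw [Finset.sum_comm]
    have e1 : ∀ x : V → (Fin R → ZMod p),
        ∑ σ : E → Equiv.Perm (Fin R),
          ∏ e, (if x (g.left e) ∘ (σ e) = push g y e then noise η (G e) (σ e) else 0) =
        ∏ e, ff η (G e) (push g y e) (x (g.left e)) := by
      intro x
      unfold ff
      rw [Finset.prod_univ_sum]
      rw [← Finset.sum_filter_add_sum_filter_not univ
        (fun σ : E → Equiv.Perm (Fin R) => ∀ e, x (g.left e) ∘ (σ e) = push g y e)]
      have z1 : ∑ σ ∈ univ.filter (fun σ : E → Equiv.Perm (Fin R) =>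
          ¬ ∀ e, x (g.left e) ∘ (σ e) = push g y e),
          ∏ e, (if x (g.left e) ∘ (σ e) = push g y e then noise η (G e) (σ e) else 0) = 0 := by
        refine Finset.sum_eq_zero fun σ hσ => ?_
        rw [Finset.mem_filter] at hσ
        obtain ⟨e, he⟩ := not_forall.1 hσ.2
        exact Finset.prod_eq_zero (Finset.mem_univ e) (if_neg he)
      rw [z1, add_zero]
      refine Finset.sum_congr ?_ fun σ hσ => Finset.prod_congr rfl fun e _ => ?_
      · ext σ
        simp [Fintype.mem_piFinset]
      · have h2 : ∀ e, x (g.left e) ∘ (σ e) = push g y e := by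
          simpa [Fintype.mem_piFinset] using hσ
        rw [if_pos (h2 e)]
    rw [Finset.sum_congr rfl (fun x _ => e1 x)]
    exact main_sum g.left hs (fun e z => ff η (G e) (push g y e) z)
      (fun e z => ff_nonneg h0 h1 _ _ _) (fun e => sum_ff η (G e) _) (1 - η / 2) (by linarith)
      Bad (fun e z hz => ff_le h0 h1 _ _ _ (hBad e z hz)) B
  refine (Finset.sum_le_sum fun y _ => step2 y).trans ?_
  rw [Finset.sum_const, nsmul_eq_mul]
  have hc : ((univ : Finset (W → Fin (d * R) → ZMod p)).card : ℝ) =
      (p : ℝ) ^ (d * R * Fintype.card W) := by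
    rw [Finset.card_univ, Fintype.card_fun, Fintype.card_fun, ZMod.card, Fintype.card_fin]
    push_cast
    rw [← pow_mul]
  rw [hc]

end Pool.Agent.D0H37.SG
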