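import Pool.Agent.D0H37.SG.Fin

set_option autoImplicit false

namespace Pool.Agent.D0H37.SG

open Finset
open scoped Classical

variable {V W E : Type} {d R : ℕ}

/-- `L'` is read off from `x`: if all the values `x v j`, `j ≠ i`, are the same and `x v i` is
different, then `L' v = i` -/
def ReadOff {K : Type} (x : V → Fin R → K) (L' : V → Fin R) : Prop :=
  ∀ v i c, x v i ≠ c → (∀ j, j ≠ i → x v j = c) → L' v = i

theorem exists_readOff {K : Type} (hR : 3 ≤ R) (x : V → Fin R → K) : ∃ L', ReadOff x L' := by
  have hne : Nonempty (Fin R) := ⟨⟨0, by omega⟩⟩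
  refine ⟨fun v => if h : ∃ i, ∃ c, x v i ≠ c ∧ ∀ j, j ≠ i → x v j = c then h.choose
    else Classical.arbitrary _, ?_⟩
  intro v i c hi hj
  have h : ∃ i, ∃ c, x v i ≠ c ∧ ∀ j, j ≠ i → x v j = c := ⟨i, c, hi, hj⟩
  dsimp only
  rw [dif_pos h]
  obtain ⟨c', h1, h2⟩ := h.choose_spec
  by_contra hne'
  set i' := h.choose with hi'
  -- a third index
  obtain ⟨k, hk1, hk2⟩ : ∃ k : Fin R, k ≠ i ∧ k ≠ i' := by
    by_contra hcon
    push Not at hcon
    have h3 : (univ : Finset (Fin R)) ⊆ {i, i'} := by
      intro k _
      by_cases hk : k = i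
      · simp [hk]
      · simp [hcon k hk]
    have h4 := Finset.card_le_card h3
    rw [Finset.card_univ, Fintype.card_fin] at h4
    have h5 : ({i, i'} : Finset (Fin R)).card ≤ 2 := Finset.card_le_two
    omega
  have e1 := hj k hk1
  have e2 := h2 k hk2
  have e3 : c = c' := e1.symm.trans e2
  exact hi ((h2 i (fun h6 => hne' h6.symm)).trans e3.symm)

/-- recovery of planted labels -/
theorem recover [Fintype V] [Fintype W] [Fintype E] {p : ℕ} (hp : p.Prime) (hpR : p ∣ R)
    (g : Game V W E d R) (hs : Function.Surjective g.left) (L : V → Fin R)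
    (M : W → Fin (d * R)) (hLM : ∀ e, g.map e (M (g.right e)) = L (g.left e))
    {η δ : ℝ} (h0 : 0 < η) (h1 : η ≤ 1) (hδ : 0 < δ)
    (G : E → Subgroup (Equiv.Perm (Fin R))) (hfix : ∀ e, ∀ τ ∈ G e, τ (L (g.left e)) = L (g.left e))
    (hG : ∀ e i j, i ≠ L (g.left e) → j ≠ L (g.left e) → ∃ τ ∈ G e, τ i = j)
    (hE : 2 / (δ * η) * ((d * R * Real.log p + 1) * Fintype.card W + 3 * Fintype.card V) ≤
      Fintype.card E) :
    prob η G {σ | ¬ ∀ x y, AffineSol p (g.perturb σ) x y → ∀ L', ReadOff x L' →
        (1 - δ) * Fintype.card E ≤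
          ((univ.filter fun e => (g.perturb σ).map e (M (g.right e)) = L' (g.left e)).card : ℝ)} ≤
      Real.exp (-(Fintype.card V + Fintype.card W)) := by
  have : Fact p.Prime := ⟨hp⟩
  set Bad : V → Set (Fin R → ZMod p) := fun v =>
    {z | ∃ i j, i ≠ L v ∧ j ≠ L v ∧ z i ≠ z j} with hBad
  set I : Finset (Finset V) := univ.filter fun B : Finset V =>
    δ * Fintype.card E ≤ ((univ.filter fun e => g.left e ∈ B).card : ℝ) with hI
  refine (prob_union h0.le h1 G _ I
    (fun B => {σ | ∃ x y, AffineSol p (g.perturb σ) x y ∧ ∀ v ∈ B, x v ∈ Bad v}) ?_).trans ?_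
  · intro σ hσ hσG
    obtain ⟨x, hx⟩ := not_forall.1 hσ
    obtain ⟨y, hy⟩ := not_forall.1 hx
    obtain ⟨hxy, hy⟩ := Classical.not_imp.1 hy
    obtain ⟨L', hL⟩ := not_forall.1 hy
    obtain ⟨hro, hlt⟩ := Classical.not_imp.1 hL
    rw [not_le] at hlt
    refine ⟨univ.filter fun v => x v ∈ Bad v, ?_, x, y, hxy, fun v hv => (Finset.mem_filter.1 hv).2⟩
    rw [hI, Finset.mem_filter]
    refine ⟨Finset.mem_univ _, ?_⟩
    -- edges at good vertices are satisfied
    have hsub : (univ : Finset E) ⊆
        (univ.filter fun e => g.left e ∈ (univ.filter fun v => x v ∈ Bad v)) ∪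
        (univ.filter fun e => (g.perturb σ).map e (M (g.right e)) = L' (g.left e)) := by
      intro e _
      rw [Finset.mem_union]
      by_cases he : x (g.left e) ∈ Bad (g.left e)
      · left
        simpa using he
      · right
        rw [Finset.mem_filter]
        refine ⟨Finset.mem_univ _, ?_⟩
        have e1 : (g.perturb σ).map e (M (g.right e)) = L (g.left e) := by
          change σ e (g.map e (M (g.right e))) = _
          rw [hLM e]
          exact hfix e _ (hσG e)
        rw [e1]
        -- the values off the planted label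
        set v := g.left e with hv
        have hgood : ∀ i j, i ≠ L v → j ≠ L v → x v i = x v j := by
          intro i j hi hj
          by_contra hne
          exact he ⟨i, j, hi, hj, hne⟩
        -- the common value
        obtain ⟨c, hc⟩ : ∃ c, ∀ j, j ≠ L v → x v j = c := by
          by_cases hex : ∃ i, i ≠ L v
          · obtain ⟨i, hi⟩ := hex
            exact ⟨x v i, fun j hj => hgood j i hj hi⟩
          · push Not at hex
            exact ⟨0, fun j hj => absurd (hex j) hj⟩
        have hsum := hxy.sum_left v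
        have hR0 : ((R : ℕ) : ZMod p) = 0 := (ZMod.natCast_eq_zero_iff R p).2 hpR
        have h7 : ∑ i, x v i = x v (L v) - c + R * c := by
          rw [← Finset.add_sum_erase _ _ (Finset.mem_univ (L v))]
          have h8 : ∑ i ∈ univ.erase (L v), x v i = ∑ i ∈ univ.erase (L v), c :=
            Finset.sum_congr rfl fun i hi => hc i (Finset.ne_of_mem_erase hi)
          rw [h8, Finset.sum_const, Finset.card_erase_of_mem (Finset.mem_univ _),
            Finset.card_univ, Fintype.card_fin, nsmul_eq_mul]
          have hRpos : 1 ≤ R := (L v).pos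
          rw [Nat.cast_sub hRpos]
          push_cast
          ring
        rw [h7, hR0, zero_mul, add_zero] at hsum
        have hne : x v (L v) ≠ c := by
          intro h9
          rw [h9, sub_self] at hsum
          exact zero_ne_one hsum
        exact (hro v (L v) c hne hc).symm
    have h3 := (Finset.card_le_card hsub).trans (Finset.card_union_le _ _)
    rw [Finset.card_univ] at h3
    have h4 : (Fintype.card E : ℝ) ≤
        ((univ.filter fun e => g.left e ∈ (univ.filter fun v => x v ∈ Bad v)).card : ℝ) +
        ((univ.filter fun e => (g.perturb σ).map e (M (g.right e)) = L' (g.left e)).card : ℝ) := by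
      exact_mod_cast h3
    linarith
  · -- the sum
    have hBad2 : ∀ (e : E) (z : Fin R → ZMod p), z ∈ Bad (g.left e) →
        ∃ τ ∈ G e, z ∘ (τ : Equiv.Perm (Fin R)) ≠ z := by
      rintro e z ⟨i, j, hi, hj, hne⟩
      obtain ⟨τ, hτ, h2⟩ := hG e j i hj hi
      refine ⟨τ, hτ, fun h3 => hne ?_⟩
      have h4 := congrFun h3 j
      rw [Function.comp, h2] at h4
      exact h4
    have hp0 : (0 : ℝ) < p := by exact_mod_cast hp.pos
    have e1 : (p : ℝ) ^ (d * R * Fintype.card W) =
        Real.exp (d * R * Fintype.card W * Real.log p) := by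
      rw [← Real.rpow_natCast, Real.rpow_def_of_pos hp0]
      push_cast
      ring_nf
    have hone : ∀ B ∈ I, prob η G {σ | ∃ x y, AffineSol p (g.perturb σ) x y ∧
        ∀ v ∈ B, x v ∈ Bad v} ≤ Real.exp (d * R * Fintype.card W * Real.log p +
          -(η / 2) * (δ * Fintype.card E - Fintype.card V)) := by
      intro B hB
      rw [hI, Finset.mem_filter] at hB
      refine (prob_fixed g hs h0.le h1 G Bad hBad2 B).trans ?_
      rw [e1, Real.exp_add]
      refine mul_le_mul_of_nonneg_left ?_ (Real.exp_pos _).le
      refine pow_bound h1 _ h0.le ?_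
      have hQ := deg_sub g.left B
      have : ((univ.filter fun e => g.left e ∈ B).card : ℝ) ≤
          ((∑ v ∈ B, ((univ.filter fun e => g.left e = v).card - 1) : ℕ) : ℝ) +
            Fintype.card V := by
        exact_mod_cast hQ
      linarith [hB.2]
    refine (Finset.sum_le_sum hone).trans ?_
    rw [Finset.sum_const, nsmul_eq_mul]
    have hIc : (I.card : ℝ) ≤ Real.exp (Fintype.card V * Real.log 2) := by
      have h3 : I.card ≤ 2 ^ Fintype.card V := by
        refine (Finset.card_filter_le _ _).trans ?_
        rw [Finset.card_univ, Fintype.card_finset]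
      have h4 : Real.exp (Fintype.card V * Real.log 2) = (2 : ℝ) ^ Fintype.card V := by
        rw [← Real.rpow_natCast, Real.rpow_def_of_pos (by norm_num)]
        ring_nf
      rw [h4]
      exact_mod_cast h3
    refine (mul_le_mul_of_nonneg_right hIc (Real.exp_pos _).le).trans ?_
    rw [← Real.exp_add]
    apply Real.exp_le_exp.2
    have h6 : (d * R * Real.log p + 1) * Fintype.card W + 3 * Fintype.card V ≤
        η / 2 * (δ * Fintype.card E) := by
      have := mul_le_mul_of_nonneg_left hE (show 0 ≤ δ * η / 2 by positivity)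
      refine le_trans (le_of_eq ?_) (this.trans (le_of_eq ?_))
      · field_simp
      · ring
    have hV : (0 : ℝ) ≤ Fintype.card V := Nat.cast_nonneg _
    have hl2 := Real.log_two_lt_d9
    nlinarith

end Pool.Agent.D0H37.SG
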