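import Pool.Agent.D0H37.SG.Pla

set_option autoImplicit false

namespace Pool.Agent.D0H37.SG

open Finset
open scoped Classical

variable {V W E : Type} {d R : ℕ}

theorem hit_le {η : ℝ} (h0 : 0 ≤ η) (h1 : η ≤ 1) (G : Subgroup (Equiv.Perm (Fin R)))
    (hG : ∀ i j, ∃ τ ∈ G, τ i = j) (i j : Fin R) :
    ∑ σ ∈ univ.filter (fun σ : Equiv.Perm (Fin R) => σ i = j), noise η G σ ≤ 1 - η + η / R := by
  rw [sum_filter_noise]
  set A : Fin R → Finset (Equiv.Perm (Fin R)) := fun k => univ.filter fun σ => σ ∈ G ∧ σ i = k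
    with hA
  have hsame : ∀ k, (A j).card ≤ (A k).card := by
    intro k
    obtain ⟨τ, hτ, hτ2⟩ := hG j k
    refine Finset.card_le_card_of_injOn (fun σ => τ * σ) ?_ ?_
    · intro σ hσ
      rw [hA, Finset.mem_coe, Finset.mem_filter] at hσ
      rw [hA, Finset.mem_coe, Finset.mem_filter]
      refine ⟨Finset.mem_univ _, G.mul_mem hτ hσ.2.1, ?_⟩
      rw [Equiv.Perm.mul_apply, hσ.2.2, hτ2]
    · intro σ _ ρ _ h
      exact mul_left_cancel h
  have hsum : ∑ k, (A k).card ≤ Nat.card G := by
    rw [← card_eq, ← Finset.card_biUnion]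
    · refine Finset.card_le_card ?_
      intro σ hσ
      rw [Finset.mem_biUnion] at hσ
      obtain ⟨k, -, hk⟩ := hσ
      rw [hA, Finset.mem_filter] at hk
      rw [Finset.mem_filter]
      exact ⟨Finset.mem_univ _, hk.2.1⟩
    · intro k _ l _ hkl
      rw [Function.onFun, Finset.disjoint_left]
      intro σ hσ hσ'
      rw [hA, Finset.mem_filter] at hσ hσ'
      exact hkl (hσ.2.2.symm.trans hσ'.2.2)
  have hR : 0 < R := i.pos
  have h2 : R * (A j).card ≤ Nat.card G := by
    refine le_trans ?_ hsum
    calc R * (A j).card = ∑ _k : Fin R, (A j).card := by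
          rw [Finset.sum_const, Finset.card_univ, Fintype.card_fin, smul_eq_mul]
      _ ≤ _ := Finset.sum_le_sum fun k _ => hsame k
  have hGp : (0 : ℝ) < Nat.card G := by exact_mod_cast Nat.card_pos
  have hRp : (0 : ℝ) < R := by exact_mod_cast hR
  have h3 : η / Nat.card G * ((A j).card : ℝ) ≤ η / R := by
    have h4 : (R : ℝ) * (A j).card ≤ Nat.card G := by exact_mod_cast h2
    rw [div_mul_eq_mul_div, div_le_div_iff₀ hGp hRp]
    nlinarith
  have h5 : (if (1 : Equiv.Perm (Fin R)) i = j then 1 - η else 0) ≤ 1 - η := by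
    split_ifs <;> linarith
  have h6 : ((univ.filter fun σ : Equiv.Perm (Fin R) => σ ∈ G ∧ σ i = j).card : ℝ) =
    ((A j).card : ℝ) := rfl
  rw [h6]
  linarith

/-- the perturbed games have small value -/
theorem small_value [Fintype V] [Fintype W] [Fintype E] (hd : 1 ≤ d) (hR : 1 ≤ R)
    (g : Game V W E d R) {η ε : ℝ} (h0 : 0 < η) (h1 : η ≤ 1)
    (hκ : (1 - η + η / R) ^ ε ≤ 1 / 4)
    (G : E → Subgroup (Equiv.Perm (Fin R))) (hG : ∀ e i j, ∃ τ ∈ G e, τ i = j)
    (hE : 2 * (Real.log (d * R) + 1) * (Fintype.card V + Fintype.card W) ≤ Fintype.card E) :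
    prob η G {σ | ∃ (L : V → Fin R) (M : W → Fin (d * R)), ε * Fintype.card E ≤
        ((univ.filter fun e => (g.perturb σ).map e (M (g.right e)) = L (g.left e)).card : ℝ)} ≤
      Real.exp (-(Fintype.card V + Fintype.card W)) := by
  have hRp : (0 : ℝ) < R := by exact_mod_cast hR
  have hdp : (0 : ℝ) < d := by exact_mod_cast hd
  set κ : ℝ := 1 - η + η / R with hκd
  have hκ0 : 0 < κ := by
    have : 0 < η / R := by positivity
    rw [hκd]
    linarith
  have hκ1 : κ ≤ 1 := by
    have : η / R ≤ η := div_le_self h0.le (by exact_mod_cast hR)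
    rw [hκd]
    linarith
  set I : Finset (((V → Fin R) × (W → Fin (d * R))) × Finset E) := univ.filter fun t =>
    ε * Fintype.card E ≤ (t.2.card : ℝ) with hI
  refine (prob_union h0.le h1 G _ I (fun t => {σ | ∀ e, e ∈ t.2 →
    σ e (g.map e (t.1.2 (g.right e))) = t.1.1 (g.left e)}) ?_).trans ?_
  · rintro σ ⟨L, M, h⟩ -
    refine ⟨((L, M), univ.filter fun e => (g.perturb σ).map e (M (g.right e)) = L (g.left e)),
      ?_, ?_⟩
    · rw [hI, Finset.mem_filter]
      exact ⟨Finset.mem_univ _, h⟩
    · intro e he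
      exact (Finset.mem_filter.1 he).2
  · have hone : ∀ t ∈ I, prob η G {σ | ∀ e, e ∈ t.2 →
        σ e (g.map e (t.1.2 (g.right e))) = t.1.1 (g.left e)} ≤
        (1 / 4 : ℝ) ^ Fintype.card E := by
      intro t ht
      rw [hI, Finset.mem_filter] at ht
      rw [prob_prod η G (fun e σ => e ∈ t.2 →
        σ (g.map e (t.1.2 (g.right e))) = t.1.1 (g.left e))]
      refine le_trans (Finset.prod_le_prod (g := fun e => if e ∈ t.2 then κ else 1)
        (fun e _ => Finset.sum_nonneg fun σ _ => noise_nonneg h0.le h1 _ _) fun e _ => ?_) ?_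
      · by_cases he : e ∈ t.2
        · rw [if_pos he]
          refine (le_of_eq (Finset.sum_congr ?_ fun _ _ => rfl)).trans
            (hit_le h0.le h1 (G e) (hG e) (g.map e (t.1.2 (g.right e))) (t.1.1 (g.left e)))
          ext σ
          simp [he]
        · rw [if_neg he]
          refine (le_of_eq (Finset.sum_congr ?_ fun _ _ => rfl)).trans
            (le_of_eq (sum_noise η (G e)))
          ext σ
          simp [he]
      rw [Finset.prod_ite_mem, Finset.univ_inter, Finset.prod_const]
      calc κ ^ t.2.card = κ ^ (t.2.card : ℝ) := (Real.rpow_natCast _ _).symm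
        _ ≤ κ ^ (ε * Fintype.card E) := Real.rpow_le_rpow_of_exponent_ge hκ0 hκ1 ht.2
        _ = (κ ^ ε) ^ (Fintype.card E) := by
            rw [Real.rpow_mul hκ0.le, Real.rpow_natCast]
        _ ≤ (1 / 4 : ℝ) ^ Fintype.card E :=
            pow_le_pow_left₀ (Real.rpow_nonneg hκ0.le _) hκ _
    refine (Finset.sum_le_sum hone).trans ?_
    rw [Finset.sum_const, nsmul_eq_mul]
    have hIc : (I.card : ℝ) ≤ (R : ℝ) ^ Fintype.card V * ((d : ℝ) * R) ^ Fintype.card W *
        2 ^ Fintype.card E := by
      have h3 : I.card ≤ R ^ Fintype.card V * (d * R) ^ Fintype.card W * 2 ^ Fintype.card E := by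
        refine (Finset.card_filter_le _ _).trans ?_
        rw [Finset.card_univ, Fintype.card_prod, Fintype.card_prod, Fintype.card_fun,
          Fintype.card_fun, Fintype.card_finset, Fintype.card_fin, Fintype.card_fin]
      exact_mod_cast h3
    refine (mul_le_mul_of_nonneg_right hIc (by positivity)).trans ?_
    have hdR : (1 : ℝ) ≤ d * R := by
      have : 1 ≤ d * R := Nat.one_le_iff_ne_zero.2 (by positivity)
      exact_mod_cast this
    have hdR0 : (0 : ℝ) < d * R := by linarith
    have e1 : (R : ℝ) ^ Fintype.card V ≤ Real.exp (Fintype.card V * Real.log (d * R)) := by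
      have : Real.exp (Fintype.card V * Real.log (d * R)) = ((d : ℝ) * R) ^ Fintype.card V := by
        rw [← Real.rpow_natCast, Real.rpow_def_of_pos hdR0]
        ring_nf
      rw [this]
      refine pow_le_pow_left₀ hRp.le ?_ _
      have : (1 : ℝ) ≤ d := by exact_mod_cast hd
      nlinarith
    have e2 : ((d : ℝ) * R) ^ Fintype.card W = Real.exp (Fintype.card W * Real.log (d * R)) := by
      rw [← Real.rpow_natCast, Real.rpow_def_of_pos hdR0]
      ring_nf
    have e3 : (2 : ℝ) ^ Fintype.card E * (1 / 4) ^ Fintype.card E =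
        Real.exp (-(Fintype.card E * Real.log 2)) := by
      rw [← mul_pow]
      have : (2 * (1 / 4) : ℝ) = (2 : ℝ)⁻¹ := by norm_num
      rw [this, Real.exp_neg, inv_pow]
      congr 1
      rw [← Real.rpow_natCast, Real.rpow_def_of_pos (by norm_num)]
      ring_nf
    calc (R : ℝ) ^ Fintype.card V * ((d : ℝ) * R) ^ Fintype.card W *
          2 ^ Fintype.card E * (1 / 4) ^ Fintype.card E
        = (R : ℝ) ^ Fintype.card V * ((d : ℝ) * R) ^ Fintype.card W *
          (2 ^ Fintype.card E * (1 / 4) ^ Fintype.card E) := by ring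
      _ ≤ Real.exp (Fintype.card V * Real.log (d * R)) *
          Real.exp (Fintype.card W * Real.log (d * R)) *
          Real.exp (-(Fintype.card E * Real.log 2)) := by
          rw [e3, e2]
          gcongr
      _ = Real.exp (Fintype.card V * Real.log (d * R) + Fintype.card W * Real.log (d * R) +
          -(Fintype.card E * Real.log 2)) := by rw [Real.exp_add, Real.exp_add]
      _ ≤ _ := by
          apply Real.exp_le_exp.2
          have hl := Real.log_two_gt_d9
          have hlog : 0 ≤ Real.log (d * R) := Real.log_nonneg hdR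
          have hV : (0 : ℝ) ≤ Fintype.card V := Nat.cast_nonneg _
          have hW : (0 : ℝ) ≤ Fintype.card W := Nat.cast_nonneg _
          have hEE : 0 ≤ (Fintype.card E : ℝ) := Nat.cast_nonneg _
          have h5 : (1 : ℝ) / 2 * Fintype.card E ≤ Real.log 2 * Fintype.card E := by
            nlinarith
          nlinarith

end Pool.Agent.D0H37.SG
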